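import Pool.Agent.Lib.MP_75a307_lc.LE.DirA
import Pool.Agent.Lib.MP_75a307_lc.LE.DirB2
import Pool.Agent.Lib.MP_75a307_lc.LE.DirC3

/-!
The exact consistency strength of a bad witness: a coherent sequence `S` of non-overlapping
extenders with `o(κ) > μ` for a cardinal `μ` such that the normal measure of `S(κ, μ)`
concentrates on the `α` with `o(α)` inaccessible.  In `L[S]` this condition at a singular `μ`
characterises the bad witnesses.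
-/

namespace Pool.Agent.Results.MP_75a307_lc.Equi

open Pool.Agent.Lib.MP_1d770b_lc Pool.Agent.Lib.MP_75a307_lc Pool.Agent.Lib.MP_75a307_lc.LE

universe u

/-- `S` is coherent, `μ` is a cardinal with `κ < μ < o(κ)`, and the normal measure of `S(κ, μ)`
concentrates on `{α : o(α) is inaccessible}`. -/
def Phi {M : Type u} (E : M → M → Prop) (S κ μ : M) : Prop :=
  Coh E S ∧ IsCard E μ ∧ ∃ X p, IsOPair E p κ X ∧ At E S κ μ p ∧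
    ∀ α, E α X → ∃ ν, E α ν ∧ Inacc E Set.univ ν ∧ IsO E S α ν

theorem long_phi {M : Type u} {E : M → M → Prop} {S κ μ : M} (h : Long E S κ μ) :
    Phi E S κ μ :=
  let ⟨h1, h2, X, p, h3, h4, h5⟩ := h
  ⟨h1, h2, X, p, h3, h4, fun α k => let ⟨ν, k1, k2⟩ := h5 α k; ⟨ν, k1.1, k1.2.1, k2⟩⟩

theorem phi_longI {M : Type u} {E : M → M → Prop} {S κ μ : M} (h : Phi E S κ μ) :
    LongI E S κ μ :=
  let ⟨h1, h2, X, p, h3, h4, h5⟩ := h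
  ⟨h1, h2, X, p, h3, h4, fun α k => let ⟨ν, _, k1⟩ := h5 α k; ⟨ν, k1⟩⟩

set_option synthInstance.maxSize 100000 in
theorem longI_phi {M : Type u} {E : M → M → Prop} [ZF E] (hC : Choice E) {S κ μ : M}
    (h : LongI E S κ μ) : Phi E S κ μ := by
  obtain ⟨hS, hμ, X, p, hp, ha, hX⟩ := h
  obtain ⟨F, j, W, hF, e, c⟩ := hS.ext κ μ ⟨p, ha⟩
  obtain ⟨a, X', k1, -, -, k2⟩ := (e.mem p).1 ((hF p).2 ha)
  obtain ⟨rfl, rfl⟩ := hp.inj k1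
  obtain ⟨ν, wν, n1, n2⟩ := (e.emb.el.tr2 (fun W S X => ∀ α, E α X → ∃ ν ∈ W, Inacc E W ν ∧
    IsO E S α ν) S X).1 (fun α hα => let ⟨ν, k⟩ := hX α hα; ⟨ν, trivial, k⟩) κ k2
  obtain ⟨w, w1, w2⟩ := (e.emb.ia.inacc hC).2.1
  obtain ⟨l, l1, l2⟩ := dirB_suc hμ e.len.2.1 w1 w2
  obtain ⟨q, hq⟩ := hS.down κ μ l ⟨p, ha⟩ l1 l2
  have lt : E κ ν :=
    n1.1.tr ((n2 l).1 ⟨q, (c κ l q (.inr rfl)).2 ⟨hq, .inr l2⟩⟩).2 l1
  obtain ⟨Y, hY⟩ := sep (E := E) κ fun α => ∃ ν, E α ν ∧ Inacc E Set.univ ν ∧ IsO E S α ν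
  have hj : E κ (j Y) := (e.emb.el.tr3 (fun W S κ Y => ∀ α, E α κ →
    (∃ ν ∈ W, E α ν ∧ Inacc E W ν ∧ IsO E S α ν) → E α Y) S κ Y).1
    (fun α h1 ⟨ν, _, k⟩ => (hY α).2 ⟨h1, ν, k⟩) κ e.emb.lt ⟨ν, wν, lt, n1, n2⟩
  exact ⟨hS, hμ, Y, _, pr_spec _ _, (hF _).1 ((e.mem _).2 ⟨κ, Y, pr_spec _ _,
    tup_iff.2 (sub_tup e.len.2.1), fun t ht => tup_iff.2 (sub_tup ((hY t).1 ht).1), hj⟩),
    fun α k => ((hY α).1 k).2⟩

theorem parts {M : Type u} (E : M → M → Prop) (hZF : IsZF E) (hAC : Choice E) (κ : M) :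
    ((∃ m, Bad E κ m) → ∃ S μ, Long E S κ μ ∧ Phi E S κ μ) ∧
    (∀ S μ, Phi E S κ μ → IsZF (Res E (LA E S)) ∧ Choice (Res E (LA E S)) ∧
      ∃ κ' m : LA E S, κ'.1 = κ ∧ Bad (Res E (LA E S)) κ' m) ∧
    ∀ S, Coh E S → LA E S = Set.univ →
      ((∃ m, Bad E κ m) ↔ ∃ μ, Phi E S κ μ) ∧ ∀ m, Bad E κ m ↔ Sing E m ∧ Phi E S κ m := by
  have : ZF E := ⟨hZF⟩
  refine ⟨fun ⟨_, h⟩ => ?_, fun S μ h1 => ?_, fun S h1 h2 => ?_⟩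
  · obtain ⟨S, μ, k⟩ := dirA hAC (bad_star hAC h)
    exact ⟨S, μ, k, long_phi k⟩
  · rw [la_eq]
    exact ⟨(lk_inn S).zf.out, (lk_inn S).ac, dirB2 hAC (phi_longI h1)⟩
  · rw [la_eq] at h2
    have hV : ∀ x, x ∈ LK E S := fun x => h2 ▸ Set.mem_univ x
    have k : ∀ m, Bad E κ m → Phi E S κ m := fun m h =>
      longI_phi hAC (bad_long hAC ((coh_iff hAC).1 h1) hV h)
    exact ⟨⟨fun ⟨m, h⟩ => ⟨m, k m h⟩, fun ⟨_, h⟩ => long_bad hAC hV (phi_longI h)⟩, fun m =>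
      ⟨fun h => ⟨h.2.2.1, k m h⟩, fun h => long_bad' hAC hV (phi_longI h.2) h.1⟩⟩

theorem result :
    ((∃ (M : Type u) (E : M → M → Prop), IsZF E ∧ Choice E ∧ ∃ κ m, Bad E κ m) ↔
      ∃ (M : Type u) (E : M → M → Prop), IsZF E ∧ Choice E ∧ ∃ S κ μ, Phi E S κ μ) ∧
    ∀ (M : Type u) (E : M → M → Prop), IsZF E → Choice E → ∀ κ : M,
      ((∃ m, Bad E κ m) → ∃ S μ, Long E S κ μ ∧ Phi E S κ μ) ∧
      (∀ S μ, Phi E S κ μ → IsZF (Res E (LA E S)) ∧ Choice (Res E (LA E S)) ∧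
        ∃ κ' m : LA E S, κ'.1 = κ ∧ Bad (Res E (LA E S)) κ' m) ∧
      ∀ S, Coh E S → LA E S = Set.univ →
        ((∃ m, Bad E κ m) ↔ ∃ μ, Phi E S κ μ) ∧ ∀ m, Bad E κ m ↔ Sing E m ∧ Phi E S κ m := by
  refine ⟨⟨fun ⟨M, E, h1, h2, κ, h⟩ => ?_, fun ⟨M, E, h1, h2, S, κ, μ, h⟩ => ?_⟩,
    fun M E h1 h2 κ => parts E h1 h2 κ⟩
  · obtain ⟨S, μ, -, k⟩ := (parts E h1 h2 κ).1 h
    exact ⟨M, E, h1, h2, S, κ, μ, k⟩
  · obtain ⟨k1, k2, κ', m, -, k3⟩ := (parts E h1 h2 κ).2.1 S μ h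
    exact ⟨_, _, k1, k2, κ', m, k3⟩

end Pool.Agent.Results.MP_75a307_lc.Equi
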