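import Pool.Agent.Lib.MP_75a307_lc.Main

/-!
In every model of ZFC, `κ` carries a bad witness iff `κ` is the critical point of some
`j : V → W` with `V_ν ⊆ W` for `ν = (κ*)^W`, iff one `j` has `V_{j(g)(κ)} ⊆ W` for all `g < *`.
-/

namespace Pool.Agent.Results.MP_75a307_lc.Exact

open Pool.Agent.Lib.MP_1d770b_lc Pool.Agent.Lib.MP_75a307_lc

universe u

theorem result {M : Type u} (E : M → M → Prop) (hZF : IsZF E) (hAC : Choice E) (κ : M) :
    List.TFAE [∃ μ, Bad E κ μ, StarStrong E κ, StarSuper E κ] := by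
  have : ZF E := ⟨hZF⟩
  tfae_have 1 → 2 := fun ⟨_, h⟩ => bad_star hAC h
  tfae_have 2 → 3 := star_super
  tfae_have 3 → 1 := super_bad hAC
  tfae_finish

end Pool.Agent.Results.MP_75a307_lc.Exact
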