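import Pool.Agent.Lib.MP_75a307_lc.Refl

/-!
A bad witness at `κ` gives a normal measure on `κ` concentrating on cardinals that are Shelah for
all functions below `*` and satisfy the known lower bound themselves.
-/

namespace Pool.Agent.Results.MP_75a307_lc.Lower

open Pool.Agent.Lib.MP_1d770b_lc Pool.Agent.Lib.MP_75a307_lc

universe u

theorem result {M : Type u} (E : M → M → Prop) (hZF : IsZF E) (hAC : Choice E) (κ μ : M)
    (h : Bad E κ μ) :
    Conc E κ fun α => StarShelah E α ∧
      Conc E α fun β => ∃ s, Star E Set.univ β s ∧ ∀ γ, E γ s → Strong E β γ := by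
  have : ZF E := ⟨hZF⟩
  exact (star_shelah hAC (bad_star hAC h)).mono fun α k => ⟨k, shelah_lower hAC k⟩

end Pool.Agent.Results.MP_75a307_lc.Lower
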