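import Pool.Agent.Lib.MP_75a307_lc.Main

/-!
If one `j : V → W` with critical point `κ` has `V_{j(g)(κ)} ⊆ W` for all `g < *`, then
`μ = sup j(g)(κ)` carries a bad witness, and `κ < cof μ ≤ 2 ^ κ`.
-/

namespace Pool.Agent.Results.MP_75a307_lc.Sup

open Pool.Agent.Lib.MP_1d770b_lc Pool.Agent.Lib.MP_75a307_lc

universe u

theorem result {M : Type u} (E : M → M → Prop) (hZF : IsZF E) (hAC : Choice E)
    (j : M → M) (W : Set M) (κ : M) (hj : ElEmb E j W κ)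
    (h : ∀ g, Below E g κ → Reach E j W κ g) :
    ∃ μ, (∀ z, E z μ ↔ ∃ g y, Below E g κ ∧ App E (j g) κ y ∧ E z y) ∧ Bad E κ μ ∧
      (∀ f, Func E f κ μ → ∃ b, E b μ ∧ ∀ x y, App E f x y → E y b) ∧
      ∃ p f, (∀ x, E x p ↔ Incl E x κ) ∧ Func E f p μ ∧
        ∀ b, E b μ → ∃ x y, App E f x y ∧ E b y := by
  have : ZF E := ⟨hZF⟩
  obtain ⟨μ, h1, h2, h3⟩ := hj.bad hAC h
  have ho := h1.2.2.1.1.1
  exact ⟨μ, fun z => ⟨h2 z, fun ⟨g, y, a, b, c⟩ => ho.tr (h3 g y a b) c⟩, h1,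
    hj.cof hAC ho h1.2.1 h2 h3⟩

end Pool.Agent.Results.MP_75a307_lc.Sup
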